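import Pool.Agent.H66.SyL.Defs

/-!
MP_b8283b_gt: the definition of an embedded Lagrangian submanifold of CP^n in small steps
(it is equivalent to `IsLagrangian` of H66/SyL/Defs.lean).
-/

set_option autoImplicit false

open scoped ContDiff Topology

namespace Pool.Agent.H66.SyP

open Pool.Agent.H66.SyL

/-- P is a point of CP^n -/
def IsPt {n : ℕ} (P : Op n) : Prop := ∃ z : E n, ‖z‖ = 1 ∧ pt z = P

/-- the derivative of p at x in the direction u -/
noncomputable def deriv {n : ℕ} (p : R n → Op n) (x u : R n) : Op n := fderiv ℝ p x u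

/-- p is a smooth parametrisation of the set S over V, a homeomorphism with inverse r, with injective
derivatives -/
def Param {n : ℕ} (V : Set (R n)) (S : Set (Op n)) (p : R n → Op n) (r : Op n → R n) : Prop :=
  ContDiffOn ℝ ∞ p V ∧ p '' V = S ∧ ContinuousOn r S ∧
    ∀ x ∈ V, r (p x) = x ∧ Function.Injective (deriv p x)

/-- omega(X, Y) = 0 for the tangent vectors X, Y at the point P = [z], where
omega(X, Y) = Im (Xz, Yz) is the Fubini-Study form -/
def Orth {n : ℕ} (P X Y : Op n) : Prop := ∀ z : E n, P z = z → (inner ℂ (X z) (Y z)).im = 0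

/-- L is an embedded Lagrangian submanifold (of dimension n, without boundary) of CP^n: all its
elements are points of CP^n, and near each of them L is parametrised by a smooth immersion p of an
open set V of R^n, a homeomorphism onto L ∩ U, U open, such that omega vanishes on the image of the
derivative of p. -/
def IsLag {n : ℕ} (L : Set (Op n)) : Prop :=
  ∀ P ∈ L, IsPt P ∧
    ∃ (V : Set (R n)) (U : Set (Op n)) (p : R n → Op n) (r : Op n → R n),
      IsOpen V ∧ IsOpen U ∧ P ∈ U ∧ Param V (L ∩ U) p r ∧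
      ∀ x ∈ V, ∀ u v, Orth (p x) (deriv p x u) (deriv p x v)

theorem IsLag.lag {n : ℕ} {L : Set (Op n)} (h : IsLag L) : IsLagrangian L := by
  intro P hP
  obtain ⟨h1, V, U, p, r, h2, h3, h4, ⟨h5, h6, h7, h8⟩, h9⟩ := h P hP
  exact ⟨h1, V, U, p, r, h2, h3, h4, h5, h6, h7, fun x hx =>
    ⟨(h8 x hx).1, (h8 x hx).2, fun u v z hz => h9 x hx u v z hz⟩⟩

theorem lag_iff {n : ℕ} {L : Set (Op n)} : IsLag L ↔ IsLagrangian L := by
  refine ⟨IsLag.lag, fun h P hP => ?_⟩
  obtain ⟨h1, V, U, p, r, h2, h3, h4, h5, h6, h7, h8⟩ := h P hP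
  exact ⟨h1, V, U, p, r, h2, h3, h4, ⟨h5, h6, h7, fun x hx => ⟨(h8 x hx).1, (h8 x hx).2.1⟩⟩,
    fun x hx u v z hz => (h8 x hx).2.2 u v z hz⟩

end Pool.Agent.H66.SyP
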