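import Pool.Agent.H66.SyL.Defs

/-!
MP_b8283b_gt: two definitions for the statement about two symmetries.
-/

set_option autoImplicit false

namespace Pool.Agent.H66.SyP

open Pool.Agent.H66.SyL

/-- The operators 1, H, H' are linearly independent over R. -/
def Indep (H H' : Op 3) : Prop := LinearIndependent ℝ ![1, H, H']

/-- The subspaces L and M of the space of operators are homeomorphic. -/
def Homeo (L M : Set (Op 3)) : Prop := Nonempty (L ≃ₜ M)

end Pool.Agent.H66.SyP
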